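import Pool.Agent.helper59.ZB.SpecH
import Pool.Agent.helper23.BR.HHB

/-!
# Project ZB (MP_baa4d7_al), row HHBT: the heights (adaptation of HHB of helper23)
-/

set_option autoImplicit false

namespace Pool.Agent.GB

open Pool.Agent.helper58.DC Pool.Agent.DI Pool.Agent.GR Pool.Agent.OB Pool.Agent.DR Pool.Agent.FI Pool.Agent.FI3 Pool.Agent.FI4 Pool.Agent.LE Pool.Agent.BR

/-- The average. -/
theorem HHBT_avg {G : Type} [Group G] (D : Subgroup G) [Fintype D] (n : ℕ) (hn : 0 < n) (hDn : Nat.card D ∣ n) (ζ : ℂ) (hζ : IsPrimitiveRoot ζ n)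
    (q N : ℝ) (F : G → ℝ) (P : D → Polynomial ℤ)
    (h1 : ∀ u : D, q * Nat.totient n ≤ ∑ μ ∈ primitiveRoots n ℂ, ‖Polynomial.aeval μ (P u)‖)
    (h2 : ∀ u : D, ∀ s : ℕ, s.Coprime n → ‖Polynomial.aeval (ζ ^ s) (P u)‖ = N * F ((u : G) ^ s)) :
    (Nat.card D : ℝ) * q ≤ N * ∑ u : D, F (u : G) := by
  classical
  have hφ : (0 : ℝ) < (Nat.totient n : ℝ) := by exact_mod_cast Nat.totient_pos.2 hn
  have hμ : ∀ μ ∈ primitiveRoots n ℂ, ∑ u : D, ‖Polynomial.aeval μ (P u)‖ = N * ∑ u : D, F (u : G) := by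
    intro μ hm
    have hne : NeZero n := ⟨hn.ne'⟩
    obtain ⟨s, -, hsn, rfl⟩ := (hζ.isPrimitiveRoot_iff).1 ((mem_primitiveRoots hn).1 hm)
    rw [Finset.sum_congr rfl fun u _ => h2 u s hsn, ← Finset.mul_sum, HHB_perm D s (Nat.Coprime.coprime_dvd_left hDn hsn.symm) F]
  have h3 : ∑ u : D, (q * Nat.totient n) ≤ ∑ u : D, ∑ μ ∈ primitiveRoots n ℂ, ‖Polynomial.aeval μ (P u)‖ := Finset.sum_le_sum fun u _ => h1 u
  rw [Finset.sum_comm, Finset.sum_congr rfl hμ, Finset.sum_const, Finset.sum_const, Complex.card_primitiveRoots, Finset.card_univ, ← Nat.card_eq_fintype_card,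
    nsmul_eq_mul, nsmul_eq_mul] at h3
  have h4 : (Nat.card D : ℝ) * (q * Nat.totient n) = (Nat.totient n : ℝ) * (Nat.card D * q) := by ring
  rw [h4] at h3
  exact le_of_mul_le_mul_left h3 hφ

theorem HHBT (hHVPT : HVPT_stmt) (hPLT : PLT_stmt) (hHNL : Pool.Agent.BR.HNL_stmt) (hHL1T : HL1T_stmt) (hHWTT : HWTT_stmt) (_hB2 : B2_stmt) : HHBT_stmt := by
  intro p M hS G _ _ D T x θ χ hZ ψ₀ hψ₀ hnI ψ hψ d k hd hd0 hv
  classical
  have hpf : Fact p.Prime := ⟨hS.pr⟩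
  have hft : Fintype T := Fintype.ofFinite T
  have hG0 : Nat.card G ≠ 0 := Nat.card_pos.ne'
  have hD0 : Nat.card D ≠ 0 := Nat.card_pos.ne'
  have hp0 : p ^ k ≠ 0 := pow_ne_zero _ hS.pr.ne_zero
  have a1 : (Nat.card G : ℂ) ≠ 0 := by exact_mod_cast hG0
  have a2 : (Nat.card D : ℂ) ≠ 0 := by exact_mod_cast hD0
  have a3 : (p : ℂ) ^ k ≠ 0 := pow_ne_zero _ (by exact_mod_cast hS.pr.ne_zero)
  have a4 : (d : ℂ) ≠ 0 := by exact_mod_cast hd0
  have h3 : IntAt M (((Nat.card D * d : ℕ) : ℂ) / ((Nat.card G * p ^ k : ℕ) : ℂ)) := by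
    refine HHB_int hS (mul_ne_zero hD0 hd0) (mul_ne_zero hG0 hp0) ?_
    rw [padicValNat.mul hD0 hd0, padicValNat.mul hG0 hp0, padicValNat.prime_pow]
    exact hv.le
  have hn : 0 < p * Nat.card T := Nat.mul_pos hS.pr.pos Nat.card_pos
  have hζ : IsPrimitiveRoot (Complex.exp (2 * Real.pi * Complex.I / (p * Nat.card T : ℕ))) (p * Nat.card T) := Complex.isPrimitiveRoot_exp _ hn.ne'
  have hpow : ∀ u : T, (u : G) ^ (p * Nat.card T) = 1 := by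
    intro u
    have e1 : (u : T) ^ Nat.card T = 1 := pow_card_eq_one'
    have e2 : (u : G) ^ Nat.card T = 1 := congrArg Subtype.val e1
    rw [mul_comm, pow_mul, e2, one_pow]
  have hP : ∀ u : T, ∃ P : Polynomial ℤ, ∀ s : ℕ, ¬ p ∣ s → (Nat.card D : ℂ) * PP p M θ ψ ψ₀ ((u : G) ^ s) =
      Polynomial.aeval ((Complex.exp (2 * Real.pi * Complex.I / (p * Nat.card T : ℕ))) ^ s) P := fun u =>
    hPLT p M hS G D T x θ χ hZ u u.2 ψ hψ.1 ψ₀ hψ₀.1 _ hn (hpow u) _ hζ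
  choose P hP using hP
  have hcop : ∀ s : ℕ, s.Coprime (p * Nat.card T) → ¬ p ∣ s := by
    intro s hs hps
    have h1 : p ∣ Nat.gcd s (p * Nat.card T) := Nat.dvd_gcd hps (dvd_mul_right _ _)
    rw [hs] at h1
    exact hS.pr.one_lt.ne' (Nat.dvd_one.1 h1)
  have hq : ∀ u : T, ((p : ℝ) ^ k) * Nat.totient (p * Nat.card T) ≤ ∑ μ ∈ primitiveRoots (p * Nat.card T) ℂ, ‖Polynomial.aeval μ (P u)‖ := by
    intro u
    refine hHNL p M hS _ k hn (P u) fun μ hm => ?_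
    have hne : NeZero (p * Nat.card T) := ⟨hn.ne'⟩
    obtain ⟨s, -, hsn, rfl⟩ := (hζ.isPrimitiveRoot_iff).1 ((mem_primitiveRoots hn).1 hm)
    rw [← hP u s (hcop s hsn)]
    obtain ⟨v1, v2⟩ := hHVPT p M hS G D T x θ χ hZ ((u : G) ^ s) (T.pow_mem u.2 s) ψ₀ hψ₀ hnI ψ hψ
    have hV0 : (Nat.card G : ℂ) * PP p M θ ψ ψ₀ ((u : G) ^ s) / ψ 1 ≠ 0 := fun h0 => v2 (h0 ▸ InM.zero hS)
    constructor
    · intro h0
      apply hV0
      have h1 : PP p M θ ψ ψ₀ ((u : G) ^ s) = 0 := (mul_eq_zero.1 h0).resolve_left a2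
      rw [h1, mul_zero, zero_div]
    · have h4 := IntAt.mul hS v1 h3
      have e : (Nat.card G : ℂ) * PP p M θ ψ ψ₀ ((u : G) ^ s) / ψ 1 * (((Nat.card D * d : ℕ) : ℂ) / ((Nat.card G * p ^ k : ℕ) : ℂ)) =
          (Nat.card D : ℂ) * PP p M θ ψ ψ₀ ((u : G) ^ s) / (p : ℂ) ^ k := by
        rw [hd]
        push_cast
        field_simp
      rw [e] at h4
      exact h4
  have hF : ∀ u : T, ∀ s : ℕ, s.Coprime (p * Nat.card T) →
      ‖Polynomial.aeval ((Complex.exp (2 * Real.pi * Complex.I / (p * Nat.card T : ℕ))) ^ s) (P u)‖ = (Nat.card D : ℝ) * (fun g : G => ‖PP p M θ ψ ψ₀ g‖) ((u : G) ^ s) := by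
    intro u s hs
    rw [← hP u s (hcop s hs), norm_mul, Complex.norm_natCast]
  have h5 := HHBT_avg T (p * Nat.card T) hn (dvd_mul_left _ _) _ hζ ((p : ℝ) ^ k) (Nat.card D : ℝ) (fun g => ‖PP p M θ ψ ψ₀ g‖) P hq hF
  have h6 := hHL1T p M hS G D T x θ χ hZ ψ hψ ψ₀ hψ₀
  have h7 : ∑ᶠ u ∈ (T : Set G), ‖ciT M D T θ u * PP p M θ ψ ψ₀ u‖ = ∑ u : T, ‖ciT M D T θ (u : G) * PP p M θ ψ ψ₀ (u : G)‖ := by
    rw [← finsum_set_coe_eq_finsum_mem (f := fun u : G => ‖ciT M D T θ u * PP p M θ ψ ψ₀ u‖) (T : Set G)]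
    exact finsum_eq_sum_of_fintype _
  rw [h7] at h6
  have h8 : ∑ u : T, (fun g : G => ‖PP p M θ ψ ψ₀ g‖) (u : G) ≤ ∑ u : T, ‖ciT M D T θ (u : G) * PP p M θ ψ ψ₀ (u : G)‖ := by
    refine Finset.sum_le_sum fun u _ => ?_
    obtain ⟨c, hc, hcc⟩ := (hHWTT M G D T θ u u.2).2.1
    show ‖PP p M θ ψ ψ₀ (u : G)‖ ≤ _
    rw [norm_mul, hcc, Complex.norm_real, Real.norm_eq_abs, abs_of_nonneg (by linarith)]
    exact le_mul_of_one_le_left (norm_nonneg _) hc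
  have hDr : (0 : ℝ) ≤ (Nat.card D : ℝ) := Nat.cast_nonneg _
  have h9 : (Nat.card T : ℝ) * ((p : ℝ) ^ k) ≤ (Nat.card D : ℝ) * (iT M D T θ : ℝ) :=
    h5.trans (mul_le_mul_of_nonneg_left (h8.trans h6) hDr)
  have h10 : Nat.card D = Nat.card T * T.relIndex D := by
    have h11 : (⊥ : Subgroup G).relIndex T * T.relIndex D = (⊥ : Subgroup G).relIndex D := Subgroup.relIndex_mul_relIndex _ _ _ bot_le hZ.tle
    rw [Subgroup.relIndex_bot_left, Subgroup.relIndex_bot_left] at h11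
    exact h11.symm
  have h12 : Nat.card T * p ^ k ≤ Nat.card T * (iT M D T θ * T.relIndex D) := by
    have h13 : Nat.card T * p ^ k ≤ Nat.card D * iT M D T θ := by exact_mod_cast h9
    rw [h10] at h13
    calc Nat.card T * p ^ k ≤ Nat.card T * T.relIndex D * iT M D T θ := h13
      _ = Nat.card T * (iT M D T θ * T.relIndex D) := by ring
  exact Nat.le_of_mul_le_mul_left h12 Nat.card_pos

end Pool.Agent.GB
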