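import Pool.Agent.helper59.ZB.SpecH
import Pool.Agent.helper44.BR.PS0

/-!
# Project ZB (MP_baa4d7_al), row PSW (adaptation of PS0 of helper44)
-/

set_option autoImplicit false

namespace Pool.Agent.GB

open Pool.Agent.helper58.DC Pool.Agent.DI Pool.Agent.GR Pool.Agent.OB Pool.Agent.DR Pool.Agent.FI Pool.Agent.FI3 Pool.Agent.FI4 Pool.Agent.LE Pool.Agent.BR

theorem PSW_Cz_one {G : Type} [Group G] : Cz (⊤ : Subgroup G) 1 = ⊤ := by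
  ext x
  unfold Cz
  rw [Subgroup.mem_inf, Subgroup.mem_centralizer_singleton_iff]
  simp

theorem PSW (hHHTT : HHTT_stmt) (hHHBT : HHBT_stmt) (hHVPT : HVPT_stmt) (hPLT : PLT_stmt) (hHAIT : HAIT_stmt) (hB2 : B2_stmt) :
    ∀ p : ℕ, PS0P p := by
  classical
  intro p M hS G _ _ D T x θ χ hZ m hm
  obtain ⟨ψ₀, hψ₀, hPR, hnin⟩ := hHHTT p M hS G D x θ χ hZ.rt m hm
  refine ⟨ψ₀, hψ₀, hPR, ?_⟩
  intro h hh ψ hψ
  -- the integer N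
  obtain ⟨P, hP⟩ := hPLT p M hS G D T x θ χ hZ 1 T.one_mem ψ hψ.1 ψ₀ hψ₀.1 1 one_pos (one_pow 1) 1 IsPrimitiveRoot.one
  have hN : (Nat.card D : ℂ) * PP p M θ ψ ψ₀ 1 = ((P.eval 1 : ℤ) : ℂ) := by
    have h1 := hP 1 (fun h => hS.pr.one_lt.ne' (Nat.dvd_one.mp h))
    rw [one_pow, one_pow] at h1
    rw [h1]
    have h2 := Polynomial.aeval_algebraMap_apply_eq_algebraMap_eval (A := ℂ) (1 : ℤ) P
    rw [map_one] at h2
    rw [h2]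
    simp
  refine ⟨P.eval 1, hN, ?_⟩
  -- the degree
  obtain ⟨⟨d, hd0, hd, _⟩, _⟩ := (hB2 G (⊤ : Subgroup G)).2 ψ hψ.1
  have hd0' : d ≠ 0 := hd0.ne'
  have hai : IntAt M ((Nat.card D : ℂ) * d / Nat.card G) := by
    have h1 := hHAIT p M hS G D x θ χ hZ.rt 1 D.one_mem (cz D).one_mem ψ (by rw [PSW_Cz_one]; exact hψ)
    rw [PSW_Cz_one, Subgroup.card_top, hd] at h1
    exact h1
  have hG0 : Nat.card G ≠ 0 := Nat.card_pos.ne'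
  have hD0 : Nat.card D ≠ 0 := Nat.card_pos.ne'
  obtain ⟨k, e', g', hk, he', hg', heq⟩ := PS0_num hS hG0 hD0 hd0' hai
  have hkh : k ≤ h := by
    have h1 := hHHBT p M hS G D T x θ χ hZ ψ₀ hψ₀ hnin ψ hψ d k hd hd0' hk
    have h2 : p ^ k < p ^ (h + 1) := lt_of_le_of_lt h1 hh
    have h3 := (Nat.pow_lt_pow_iff_right hS.pr.one_lt).mp h2
    omega
  obtain ⟨hw1, hw2⟩ := hHVPT p M hS G D T x θ χ hZ 1 T.one_mem ψ₀ hψ₀ hnin ψ hψ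
  rw [hd] at hw1 hw2
  intro hdvd
  have hdvd' : ((p : ℤ) ^ (k + 1)) ∣ P.eval 1 := dvd_trans (pow_dvd_pow _ (by omega)) hdvd
  obtain ⟨N', hN'⟩ := hdvd'
  obtain ⟨w, hw⟩ : ∃ w : ℂ, w = (Nat.card G : ℂ) * PP p M θ ψ ψ₀ 1 / (d : ℂ) := ⟨_, rfl⟩
  rw [← hw] at hw1 hw2
  have hdc : (d : ℂ) ≠ 0 := by exact_mod_cast hd0'
  have hw3 : (Nat.card G : ℂ) * PP p M θ ψ ψ₀ 1 = w * d := by
    rw [hw, div_mul_cancel₀ _ hdc]
  have h1 : ((P.eval 1 : ℤ) : ℂ) * g' = (p : ℂ) ^ k * e' * w := by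
    apply mul_right_cancel₀ hdc
    calc ((P.eval 1 : ℤ) : ℂ) * g' * d = ((Nat.card D : ℂ) * d * g') * PP p M θ ψ ψ₀ 1 := by rw [← hN]; ring
      _ = ((p : ℂ) ^ k * e' * Nat.card G) * PP p M θ ψ ψ₀ 1 := by rw [heq]
      _ = (p : ℂ) ^ k * e' * (Nat.card G * PP p M θ ψ ψ₀ 1) := by ring
      _ = (p : ℂ) ^ k * e' * w * d := by rw [hw3]; ring
  have h2 : (p : ℂ) * N' * g' = e' * w := by
    apply mul_left_cancel₀ (pow_ne_zero k hS.p_ne)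
    rw [hN'] at h1
    push_cast at h1
    calc (p : ℂ) ^ k * ((p : ℂ) * N' * g') = (p : ℂ) ^ (k + 1) * N' * g' := by ring
      _ = (p : ℂ) ^ k * e' * w := h1
      _ = (p : ℂ) ^ k * (e' * w) := by ring
  have h3 : InM M ((e' : ℂ) * w) := by
    rw [← h2, mul_assoc]
    exact InM.mul_right hS (InM.prime_mem hS) (IntAt.mul hS (PS0_int hS N') (IntAt.natCast hS g'))
  rcases InM.or hS (IntAt.natCast hS e') hw1 h3 with h4 | h4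
  · exact he' ((InM.natCast hS e').mp h4)
  · exact hw2 h4

end Pool.Agent.GB
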