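import Mathlib
import Pool.Agent.helper58.ZB.SpecN
import Pool.Agent.helper68.BP.FRB

/-!
# Project ZB (MP_baa4d7_al), row LXA: integrality of the multiplicities of `g ↦ ψ' (g_(p'))`
-/

set_option autoImplicit false

namespace Pool.Agent.GB

open Pool.Agent.helper58.DC Pool.Agent.DI Pool.Agent.GR Pool.Agent.OB Pool.Agent.DR Pool.Agent.FI Pool.Agent.FI3 Pool.Agent.FI4 Pool.Agent.LE Pool.Agent.BR

theorem LXA_fin {G : Type} [Fintype G] (P : G → Prop) [DecidablePred P] (f : G → ℂ) :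
    ∑ᶠ x ∈ {x : G | P x}, f x = ∑ x, if P x then f x else 0 := by
  classical
  rw [finsum_mem_eq_finite_toFinset_sum _ (Set.toFinite _), ← Finset.sum_filter]
  refine Finset.sum_congr ?_ fun _ _ => rfl
  ext x
  simp

theorem LXA_mem {G : Type} [Group G] {v x : G} : x ∈ Cz (⊤ : Subgroup G) v ↔ v * x = x * v := by
  unfold Cz
  rw [Subgroup.mem_inf, Subgroup.mem_centralizer_singleton_iff]
  constructor
  · intro h
    exact h.2.symm
  · intro h
    exact ⟨Subgroup.mem_top _, h.symm⟩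

theorem LXA_mean (hSPC : SPC_stmt) {G : Type} [Group G] [Finite G] (P : Subgroup G) {v : G}
    (hv : ∀ u ∈ P, v * u = u * v) {ψ : G → ℂ} (hψ : ψ ∈ IrrOn (⊤ : Subgroup G)) :
    IsIntegral ℤ ((∑ᶠ u ∈ (P : Set G), ψ ((u * v)⁻¹)) / Nat.card P) := by
  have hLC : LC P (fun _ => (1 : ℂ)) := ⟨rfl, fun _ _ _ _ => (one_mul (1 : ℂ)).symm⟩
  have hc : v⁻¹ ∈ cz P := by
    unfold cz
    rw [Subgroup.mem_centralizer_iff]
    intro u hu
    have h1 := hv u hu
    calc u * v⁻¹ = v⁻¹ * (v * u) * v⁻¹ := by group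
      _ = v⁻¹ * (u * v) * v⁻¹ := by rw [h1]
      _ = v⁻¹ * u := by group
  have h := hSPC G P (fun _ => 1) hLC v⁻¹ hc ψ hψ
  have e : ∑ᶠ u ∈ (P : Set G), (1 : ℂ) * ψ (u * v⁻¹) = ∑ᶠ u ∈ (P : Set G), ψ ((u * v)⁻¹) := by
    refine finsum_mem_eq_of_bijOn (fun u => u⁻¹) ?_ ?_
    · refine ⟨fun u hu => P.inv_mem hu, fun u _ w _ h => inv_injective h, fun u hu => ⟨u⁻¹, P.inv_mem hu, inv_inv u⟩⟩
    · intro u hu
      have h1 := hv u hu
      rw [one_mul]
      congr 1
      have h2 : (u⁻¹ * v)⁻¹ = v⁻¹ * u := by group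
      rw [h2]
      calc u * v⁻¹ = v⁻¹ * (v * u) * v⁻¹ := by group
        _ = v⁻¹ * (u * v) * v⁻¹ := by rw [h1]
        _ = v⁻¹ * u := by group
  rw [e] at h
  exact h

/-- The inner sum. -/
theorem LXA_S (hSPC : SPC_stmt) {p : ℕ} {M : Ideal (integralClosure ℤ ℂ)} (hS : Setup p M) {G : Type} [Group G] [Finite G] (v : G)
    {ψ : G → ℂ} (hψ : ψ ∈ IrrOn (⊤ : Subgroup G)) (hcl : ∀ g x, ψ (g * x * g⁻¹) = ψ x) (hint : ∀ x, IsIntegral ℤ (ψ x)) :
    IntAt M ((∑ᶠ y ∈ {y : G | v * y = y * v ∧ PEl p y}, ψ ((y * v)⁻¹)) / Nat.card (Cz (⊤ : Subgroup G) v)) := by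
  have hmain := FRB hS (Cz (⊤ : Subgroup G) v) (fun u => ψ (((u : G) * v)⁻¹)) ?_ ?_ ?_
  · have e : ∑ᶠ u ∈ {u : Cz (⊤ : Subgroup G) v | PEl p u}, ψ (((u : G) * v)⁻¹) = ∑ᶠ y ∈ {y : G | v * y = y * v ∧ PEl p y}, ψ ((y * v)⁻¹) := by
      refine finsum_mem_eq_of_bijOn (fun u => (u : G)) ?_ ?_
      · refine ⟨?_, ?_, ?_⟩
        · rintro u ⟨k, hk⟩
          refine ⟨LXA_mem.1 u.2, k, ?_⟩
          have := congrArg Subtype.val hk
          simpa using this
        · intro u _ w _ h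
          exact Subtype.ext h
        · rintro y ⟨h1, k, hk⟩
          refine ⟨⟨y, LXA_mem.2 h1⟩, ⟨k, ?_⟩, rfl⟩
          apply Subtype.ext
          simpa using hk
      · intro u _
        rfl
    rw [e] at hmain
    exact hmain
  · intro h x
    have h1 := LXA_mem.1 h.2
    have h2 : (((h * x * h⁻¹ : Cz (⊤ : Subgroup G) v) : G) * v)⁻¹ = (h : G) * (((x : G) * v)⁻¹) * (h : G)⁻¹ := by
      have h3 : ((h : G))⁻¹ * v = v * (h : G)⁻¹ := by
        calc ((h : G))⁻¹ * v = (h : G)⁻¹ * (v * h) * (h : G)⁻¹ := by group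
          _ = (h : G)⁻¹ * (h * v) * (h : G)⁻¹ := by rw [h1]
          _ = v * (h : G)⁻¹ := by group
      have h4 : ((h * x * h⁻¹ : Cz (⊤ : Subgroup G) v) : G) * v = (h : G) * ((x : G) * v) * (h : G)⁻¹ := by
        calc ((h * x * h⁻¹ : Cz (⊤ : Subgroup G) v) : G) * v = (h : G) * x * ((h : G)⁻¹ * v) := by
              push_cast
              group
          _ = (h : G) * ((x : G) * v) * (h : G)⁻¹ := by
              rw [h3]
              group
      rw [h4]
      group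
    change ψ ((((h * x * h⁻¹ : Cz (⊤ : Subgroup G) v) : G) * v)⁻¹) = ψ (((x : G) * v)⁻¹)
    rw [h2, hcl]
  · intro x
    exact IntAt.of_isIntegral hS (hint _)
  · intro P _
    have h1 := LXA_mean hSPC (P.map (Cz (⊤ : Subgroup G) v).subtype) (v := v) (by
      rintro _ ⟨u, _, rfl⟩
      exact LXA_mem.1 u.2) hψ
    have e1 : Nat.card (P.map (Cz (⊤ : Subgroup G) v).subtype) = Nat.card P :=
      Subgroup.card_map_of_injective (Subgroup.subtype_injective _)
    have e2 : ∑ᶠ u ∈ ((P.map (Cz (⊤ : Subgroup G) v).subtype : Subgroup G) : Set G), ψ ((u * v)⁻¹) =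
        ∑ᶠ u ∈ (P : Set (Cz (⊤ : Subgroup G) v)), ψ (((u : G) * v)⁻¹) := by
      rw [Subgroup.coe_map, finsum_mem_image (fun a _ b _ h => Subgroup.subtype_injective _ h)]
      rfl
    rw [e1, e2] at h1
    exact IntAt.of_isIntegral hS h1

theorem LXA (hSPC : SPC_stmt) (hPPT : PPT_stmt) (hB2 : B2_stmt) : LXA_stmt := by
  intro p M hS G _ _ q hq1 hq2 ψ hψ ψ' hψ'
  classical
  have _ : Fintype G := Fintype.ofFinite G
  have h2 := (hB2 G ⊤).2
  obtain ⟨_, hcl, hint, _, _⟩ := h2 ψ hψ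
  obtain ⟨_, hcl', hint', _, _⟩ := h2 ψ' hψ'
  have hcl1 : ∀ g x, ψ (g * x * g⁻¹) = ψ x := fun g x => hcl x g (Subgroup.mem_top g)
  have hcl2 : ∀ g x, ψ' (g * x * g⁻¹) = ψ' x := fun g x => hcl' x g (Subgroup.mem_top g)
  let S : G → ℂ := fun v => ∑ y, if v * y = y * v ∧ PEl p y then ψ ((y * v)⁻¹) else 0
  have hSv : ∀ v, S v = ∑ᶠ y ∈ {y : G | v * y = y * v ∧ PEl p y}, ψ ((y * v)⁻¹) := fun v =>
    (LXA_fin (fun y => v * y = y * v ∧ PEl p y) (fun y => ψ ((y * v)⁻¹))).symm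
  have hSI : ∀ v, IntAt M (S v / Nat.card (Cz (⊤ : Subgroup G) v)) := by
    intro v
    rw [hSv]
    exact LXA_S hSPC hS v hψ hcl1 hint
  have hSc : ∀ g v, S (g * v * g⁻¹) = S v := by
    intro g v
    change ∑ y, (if g * v * g⁻¹ * y = y * (g * v * g⁻¹) ∧ PEl p y then ψ ((y * (g * v * g⁻¹))⁻¹) else 0) =
      ∑ y, if v * y = y * v ∧ PEl p y then ψ ((y * v)⁻¹) else 0
    rw [← Equiv.sum_comp (MulAut.conj g).toEquiv (fun y => if g * v * g⁻¹ * y = y * (g * v * g⁻¹) ∧ PEl p y then ψ ((y * (g * v * g⁻¹))⁻¹) else 0)]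
    refine Finset.sum_congr rfl fun y _ => ?_
    have e0 : (MulAut.conj g).toEquiv y = g * y * g⁻¹ := rfl
    rw [e0]
    have e1 : (g * v * g⁻¹ * (g * y * g⁻¹) = g * y * g⁻¹ * (g * v * g⁻¹)) ↔ v * y = y * v := by
      have a1 : g * v * g⁻¹ * (g * y * g⁻¹) = g * (v * y) * g⁻¹ := by group
      have a2 : g * y * g⁻¹ * (g * v * g⁻¹) = g * (y * v) * g⁻¹ := by group
      rw [a1, a2]
      constructor
      · intro h
        exact mul_left_cancel (mul_right_cancel h)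
      · intro h
        rw [h]
    have e2 : PEl p (g * y * g⁻¹) ↔ PEl p y := by
      unfold PEl
      refine exists_congr fun k => ?_
      rw [conj_pow]
      constructor
      · intro h
        have : g⁻¹ * (g * y ^ p ^ k * g⁻¹) * g = g⁻¹ * 1 * g := by rw [h]
        simpa [mul_assoc] using this
      · intro h
        rw [h]
        simp
    have e3 : (g * y * g⁻¹ * (g * v * g⁻¹))⁻¹ = g * (y * v)⁻¹ * g⁻¹ := by group
    rw [e3, hcl1]
    simp only [e1, e2]
  -- the action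
  let Z : Type := {v : G // PReg p v}
  have hreg : ∀ (g v : G), PReg p v → PReg p (g * v * g⁻¹) := by
    intro g v hv
    unfold PReg at hv ⊢
    have : orderOf (g * v * g⁻¹) = orderOf v := (MulAut.conj g).orderOf_eq v
    rw [this]
    exact hv
  let act : MulAction G Z :=
    { smul := fun g v => ⟨g * v.1 * g⁻¹, hreg g v.1 v.2⟩
      one_smul := fun v => Subtype.ext (by
        change 1 * v.1 * 1⁻¹ = v.1
        group)
      mul_smul := fun g h v => Subtype.ext (by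
        change g * h * v.1 * (g * h)⁻¹ = g * (h * v.1 * h⁻¹) * g⁻¹
        group) }
  have _ : Fintype Z := Fintype.ofFinite Z
  have hst : ∀ z : Z, MulAction.stabilizer G z = Cz (⊤ : Subgroup G) z.1 := by
    intro z
    ext g
    rw [MulAction.mem_stabilizer_iff, LXA_mem]
    have h1 : (g • z = z) ↔ g * z.1 * g⁻¹ = z.1 := by
      constructor
      · intro h
        exact congrArg Subtype.val h
      · intro h
        exact Subtype.ext h
    rw [h1, mul_inv_eq_iff_eq_mul]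
    exact eq_comm
  have hmain := FRB_orb hS G Z (fun z => ψ' z.1 * S z.1) (by
    intro g z
    change ψ' (g * z.1 * g⁻¹) * S (g * z.1 * g⁻¹) = ψ' z.1 * S z.1
    rw [hcl2, hSc]) (by
    intro z
    rw [hst z, mul_div_assoc]
    exact (IntAt.of_isIntegral hS (hint' _)).mul hS (hSI _))
  have hsum : ∑ᶠ g : G, ψ' (g ^ q) * ψ g⁻¹ = ∑ z : Z, ψ' z.1 * S z.1 := by
    have h3 := hPPT p hS.pr G ⊤ (fun g => ψ' (g ^ q) * ψ g⁻¹)
    rw [Subgroup.coe_top, finsum_mem_univ] at h3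
    rw [h3]
    have h4 : ∑ᶠ y ∈ {y : G | y ∈ (⊤ : Subgroup G) ∧ PEl p y}, ∑ᶠ v ∈ {v : G | v ∈ Cz (⊤ : Subgroup G) y ∧ PReg p v}, ψ' ((y * v) ^ q) * ψ (y * v)⁻¹ =
        ∑ y, if (y ∈ (⊤ : Subgroup G) ∧ PEl p y) then (∑ v, if (v ∈ Cz (⊤ : Subgroup G) y ∧ PReg p v) then ψ' ((y * v) ^ q) * ψ (y * v)⁻¹ else 0) else 0 := by
      rw [LXA_fin (fun y => y ∈ (⊤ : Subgroup G) ∧ PEl p y)]
      refine Finset.sum_congr rfl fun y _ => ?_
      rw [LXA_fin (fun v => v ∈ Cz (⊤ : Subgroup G) y ∧ PReg p v)]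
    rw [h4]
    have h5 : ∑ z : Z, ψ' z.1 * S z.1 = ∑ v, if PReg p v then ψ' v * S v else 0 := by
      rw [← Finset.sum_filter]
      symm
      refine Finset.sum_subtype _ (fun x => ?_) _
      simp
    rw [h5]
    calc ∑ y, (if (y ∈ (⊤ : Subgroup G) ∧ PEl p y) then (∑ v, if (v ∈ Cz (⊤ : Subgroup G) y ∧ PReg p v) then ψ' ((y * v) ^ q) * ψ (y * v)⁻¹ else 0) else 0)
        = ∑ y, ∑ v, if (PReg p v ∧ v * y = y * v ∧ PEl p y) then ψ' v * ψ (y * v)⁻¹ else 0 := by
          refine Finset.sum_congr rfl fun y _ => ?_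
          by_cases hy : PEl p y
          · rw [if_pos ⟨Subgroup.mem_top y, hy⟩]
            refine Finset.sum_congr rfl fun v _ => ?_
            by_cases hv : v ∈ Cz (⊤ : Subgroup G) y ∧ PReg p v
            · have hc : y * v = v * y := LXA_mem.1 hv.1
              rw [if_pos hv, if_pos ⟨hv.2, hc.symm, hy⟩]
              have : (y * v) ^ q = v := by
                rw [(show Commute y v from hc).mul_pow, hq2 y hy, hq1 v hv.2, one_mul]
              rw [this]
            · rw [if_neg hv, if_neg]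
              rintro ⟨a, b, _⟩
              exact hv ⟨LXA_mem.2 b.symm, a⟩
          · rw [if_neg (fun h => hy h.2)]
            symm
            refine Finset.sum_eq_zero fun v _ => ?_
            rw [if_neg (fun h => hy h.2.2)]
      _ = ∑ v, ∑ y, if (PReg p v ∧ v * y = y * v ∧ PEl p y) then ψ' v * ψ (y * v)⁻¹ else 0 := Finset.sum_comm
      _ = ∑ v, if PReg p v then ψ' v * S v else 0 := by
          refine Finset.sum_congr rfl fun v _ => ?_
          by_cases hv : PReg p v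
          · rw [if_pos hv, Finset.mul_sum]
            refine Finset.sum_congr rfl fun y _ => ?_
            by_cases hy : v * y = y * v ∧ PEl p y
            · rw [if_pos ⟨hv, hy⟩, if_pos hy]
            · rw [if_neg (fun h => hy h.2), if_neg hy, mul_zero]
          · rw [if_neg hv]
            refine Finset.sum_eq_zero fun y _ => ?_
            rw [if_neg (fun h => hv h.1)]
  rw [hsum]
  exact hmain

end Pool.Agent.GB
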