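import Pool.Agent.helper7.ZB.SpecT

/-! # Row zb:ZTK (transfer of defect groups to the type `N`) -/

set_option autoImplicit false

namespace Pool.Agent.ZB

open Pool.Agent.helper58.DC Pool.Agent.DI Pool.Agent.GR Pool.Agent.OB Pool.Agent.DR Pool.Agent.FI Pool.Agent.FI3 Pool.Agent.FI4 Pool.Agent.FI4I Pool.Agent.LE Pool.Agent.L5 Pool.Agent.NAB

theorem ZTK_Om {G : Type} [Group G] (p j : ℕ) {N Z : Subgroup G} (hZ : Z ≤ N) :
    (N.subtype : N → G) '' Om p j (Z.subgroupOf N) = Om p j Z := by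
  ext y
  constructor
  · rintro ⟨y', ⟨h1, z, hz, h2⟩, rfl⟩
    refine ⟨?_, (z : G), Subgroup.mem_subgroupOf.1 hz, ?_⟩
    · have := congrArg Subtype.val h1
      simpa using this
    · have := congrArg Subtype.val h2
      simpa using this
  · rintro ⟨h1, z, hz, h2⟩
    have hy : y ∈ N := by rw [← h2]; exact N.pow_mem (hZ hz) _
    refine ⟨⟨y, hy⟩, ⟨?_, ⟨z, hZ hz⟩, Subgroup.mem_subgroupOf.2 hz, ?_⟩, rfl⟩
    · apply Subtype.ext
      simpa using h1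
    · apply Subtype.ext
      simpa using h2

theorem ZTK_ncard {G : Type} [Group G] (p j : ℕ) {N Z : Subgroup G} (hZ : Z ≤ N) :
    (Om p j (Z.subgroupOf N)).ncard = (Om p j Z).ncard := by
  rw [← ZTK_Om p j hZ, Set.ncard_image_of_injective _ N.subtype_injective]

theorem ZTK_le {G : Type} [Group G] {N Q K : Subgroup G} (hQ : Q ≤ N) : Q.subgroupOf N ≤ K.subgroupOf N ↔ Q ≤ K := by
  constructor
  · intro h q hq
    exact Subgroup.mem_subgroupOf.1 (h (Subgroup.mem_subgroupOf.2 (show ((⟨q, hQ hq⟩ : N) : G) ∈ Q from hq)))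
  · intro h q hq
    exact Subgroup.mem_subgroupOf.2 (h (Subgroup.mem_subgroupOf.1 hq))

theorem ZTK_KZ (hTR3 : TR3_stmt) (p : ℕ) {G : Type} [Group G] [Finite G] {N Q Z : Subgroup G} (hQ : Q ≤ N) (hZ : Z ≤ Q) (κ : Pm) :
    ((∀ z ∈ Z.subgroupOf N, ∀ x ∈ Q.subgroupOf N, z * x = x * z) ∧ Nat.card (Q.subgroupOf N) ≤ p ^ κ.a * Nat.card (Z.subgroupOf N) ∧
    (Om p 0 (Z.subgroupOf N)).ncard ≤ p ^ κ.r ∧ (Om p (κ.s - κ.a) (Z.subgroupOf N)).ncard = p ^ κ.k ∧ (Om p (κ.s + κ.w) (Z.subgroupOf N)).ncard = p ^ κ.k) ↔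
    ((∀ z ∈ Z, ∀ x ∈ Q, z * x = x * z) ∧ Nat.card Q ≤ p ^ κ.a * Nat.card Z ∧
    (Om p 0 Z).ncard ≤ p ^ κ.r ∧ (Om p (κ.s - κ.a) Z).ncard = p ^ κ.k ∧ (Om p (κ.s + κ.w) Z).ncard = p ^ κ.k) := by
  obtain ⟨-, h2, -, -, -⟩ := hTR3 p G N
  have hZN : Z ≤ N := hZ.trans hQ
  rw [(h2 Q hQ).1, (h2 Z hZN).1, ZTK_ncard p _ hZN, ZTK_ncard p _ hZN, ZTK_ncard p _ hZN]
  refine and_congr_left fun _ => ?_
  constructor
  · intro h z hz x hx
    have := congrArg Subtype.val (h ⟨z, hZN hz⟩ (Subgroup.mem_subgroupOf.2 hz) ⟨x, hQ hx⟩ (Subgroup.mem_subgroupOf.2 hx))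
    simpa using this
  · intro h z hz x hx
    apply Subtype.ext
    exact h z (Subgroup.mem_subgroupOf.1 hz) x (Subgroup.mem_subgroupOf.1 hx)

theorem ZTK (hTR2 : TR2_stmt) (hTR3 : TR3_stmt) : ZTK_stmt := by
  intro p κ M hp G _ _ N
  obtain ⟨h21, -, h23, -⟩ := hTR2 G M N
  obtain ⟨h31, h32, h33, h34, -⟩ := hTR3 p G N
  refine ⟨?_, ?_, ?_⟩
  · intro H hH η hη Q hQ y
    have hcc : ∀ y : N, cc (rN N η) (cls (H.subgroupOf N) y) = cc η (cls H (y : G)) := by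
      intro y
      rw [← h23 H hH y, h21 _ _ hη]
    have hpp : ∀ y : N, pp p (Cz (H.subgroupOf N) y) = pp p (Cz H (y : G)) := fun y => (h33 H hH y).2
    constructor
    · intro h
      refine ⟨((h34 y).1).1 h.reg, Subgroup.mem_subgroupOf.1 h.mem, ?_, (h32 Q hQ).2.1 h.pg, ?_, ?_, ?_⟩
      · have h1 := h.le
        rw [(h33 H hH y).1] at h1
        exact (ZTK_le hQ).1 h1
      · rw [← hpp, ← (h32 Q hQ).1]; exact h.card
      · rw [← hcc]; exact h.ne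
      · intro y' hy' hn
        have h1 := h.min ⟨y', hH hy'⟩ (Subgroup.mem_subgroupOf.2 hy') (by rw [hcc]; exact hn)
        rw [hpp, (h32 Q hQ).1] at h1
        exact h1
    · intro h
      refine ⟨((h34 y).1).2 h.reg, Subgroup.mem_subgroupOf.2 h.mem, ?_, (h32 Q hQ).2.2 h.pg, ?_, ?_, ?_⟩
      · rw [(h33 H hH y).1]
        exact (ZTK_le hQ).2 h.le
      · rw [hpp, (h32 Q hQ).1]; exact h.card
      · rw [hcc]; exact h.ne
      · intro y' hy' hn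
        rw [hcc] at hn
        rw [hpp, (h32 Q hQ).1]
        exact h.min (y' : G) (Subgroup.mem_subgroupOf.1 hy') hn
  · intro Q hQ
    constructor
    · rintro ⟨h1, h2, h3, Z', hZ', h4⟩
      have hZ1 : Z'.map N.subtype ≤ Q := by
        rintro _ ⟨z, hz, rfl⟩
        exact Subgroup.mem_subgroupOf.1 (hZ' hz)
      have hZ2 : (Z'.map N.subtype).subgroupOf N = Z' := Subgroup.comap_map_eq_self_of_injective N.subtype_injective Z'
      rw [← hZ2] at h4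
      exact ⟨h1, h2, (h32 Q hQ).2.1 h3, Z'.map N.subtype, hZ1, (ZTK_KZ hTR3 p hQ hZ1 κ).1 h4⟩
    · rintro ⟨h1, h2, h3, Z, hZ, h4⟩
      exact ⟨h1, h2, (h32 Q hQ).2.2 h3, Z.subgroupOf N, (ZTK_le (hZ.trans hQ)).2 hZ, (ZTK_KZ hTR3 p hQ hZ κ).2 h4⟩
  · intro Q hQ
    have h1 : (EQ p κ.s (Q.subgroupOf N)).map N.subtype = EQ p κ.s Q := by
      unfold EQ
      rw [MonoidHom.map_closure, ZTK_Om p κ.s hQ]
    rw [← h1]
    exact (Subgroup.comap_map_eq_self_of_injective N.subtype_injective _).symm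

end Pool.Agent.ZB
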